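import Pool.Agent.H816.Fam12

/-!
# Isotopies with isolated singular points: a sharp threshold for the second derivative

Let `φ` be a diffeomorphism of the sphere `Sⁿ` which is the identity near a point, for example the
implantation of a barbell in `S⁴`. By the Alexander trick `φ` is joined to the identity by a path of
homeomorphisms `F_t` such that `(t, x) ↦ F_t(x)` is smooth off one point. The question is whether the
singular point can be removed, for a suitable choice of the path. We show how far one can go towards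
this for all `φ`, and that one step more is a smooth isotopy.

A gauge is a function like `η(r) = r / log (1/r)`, `η(r) = r²` or `η(r) = e^(-1/r)`. Let `F` be a path
of homeomorphisms of a manifold `X` onto a manifold `Y`, or more generally a family of homeomorphisms
`F_s`, where `s` is in a euclidean space `P`, `P ≠ 0`; we require that `(s, x) ↦ (s, F_s(x))` is a
homeomorphism. A point `(s, x)` is regular if `(s, x) ↦ F_s(x)` is of class `C^∞` near `(s, x)` and
`F_s` is a local diffeomorphism at `x`. Suppose that only finitely many points are singular.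

1. Every neighbourhood of the graph of `F` contains the graph of such a family `F'` which is equal to
   `F` off any given neighbourhood of the set of singular points, has no new singular points, and has
   the following properties: all the maps `F'_s` are diffeomorphisms of class `C^∞`; the map
   `(s, x) ↦ F'_s(x)` is everywhere differentiable; and in suitable coordinates around a singular
   point, which do not depend on `s`, one has `F'_0(x) = x`, and for `z = (s, x) → 0`
   `|F'(z) - x| ≤ C η(|z|)` and `|D^k F'(z)| ≤ C_k η(|z|)^(1 - k)` for all `k ≥ 1`.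
2. If in suitable coordinates around each singular point `F` is of class `C²` off the point, and
   `|F(z) - T(z)| ≤ C η(|z|)` and `|D²F(z)| = o(1 / η(|z|))` for some smooth family `T` of local
   diffeomorphisms, then every neighbourhood of the graph of `F` contains the graph of a family `F'`
   without singular points, equal to `F` off any given neighbourhood of the set of singular points.
3. Every family `R_s`, `s ≠ 0`, of diffeomorphisms with supports in a compact subset of an open cell
   of `X` can be changed for `|s| < δ` so that it becomes a family as in 1 over `P`, with at most one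
   singular point.
4. So, for all gauges: a diffeomorphism of `Sⁿ` which is the identity near a point is joined to the
   identity by a path of diffeomorphisms of class `C^∞`, differentiable in `(t, x)`, with at most one
   singular point, at which the second derivative is `O(1/η)`. For all manifolds, two
   diffeomorphisms are smoothly isotopic if and only if they are joined by a path with finitely many
   singular points as in 2, at which the second derivative is `o(1/η)`.

In particular a barbell of `S⁴` whose implantation is not isotopic to the identity cannot be detected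
by any invariant of everywhere differentiable paths of diffeomorphisms of class `C^∞`, which are
smooth in `(t, x)` off one point; but it is detected by the second derivative at this point.

Proof of 1. Near a sphere around the singular point the family is, for small `s`, a small smooth
modification of one of its maps `F_{s₁}`. One extends this modification smoothly over the ball; then
`F` is the composition of a smooth family and a family with compact support. The latter is replaced
by a family with supports in balls of radius `η(|s|)`; the bounds follow from the formula of Faa di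
Bruno. Proof of 2. By interpolation between the two bounds on balls of radius `η(|z|) / δ` the
derivative of `F - T` tends to `0`, and `F` can be interpolated with `T`.
-/

set_option autoImplicit false

open Set Filter Topology Metric Function
open scoped Manifold ContDiff

noncomputable section

namespace Pool.Agent.Results.MP_8e98f2_gt.IsotopySingularities

/-- Gauges: functions `η`, positive, nondecreasing and smooth on some interval `(0, κ)`, with
`η(r) → 0` and `η'(r) → 0` as `r → 0`, such that the products of the `(k+1)`-st derivative and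
the `k`-th power of `η` are bounded on this interval. -/
def Gauge (η : ℝ → ℝ) : Prop :=
  Tendsto η (𝓝[>] 0) (𝓝 0) ∧ Tendsto (deriv η) (𝓝[>] 0) (𝓝 0) ∧
    ∃ κ : ℝ, 0 < κ ∧ MonotoneOn η (Ioo 0 κ) ∧
      (∀ r ∈ Ioo 0 κ, 0 < η r ∧ ContDiffAt ℝ ∞ η r) ∧
      ∀ k : ℕ, ∃ C : ℝ, ∀ r ∈ Ioo 0 κ, |iteratedDeriv (k + 1) η r| * η r ^ k ≤ C

section defs

variable (E : Type) [NormedAddCommGroup E] [NormedSpace ℝ E]
variable {P : Type} [NormedAddCommGroup P] [NormedSpace ℝ P]
variable {X Y : Type} [TopologicalSpace X] [TopologicalSpace Y] [ChartedSpace E X]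
  [ChartedSpace E Y]

/-- `g` is a local diffeomorphism of class `C^∞` at `x`. -/
def LocDiff (g : X → Y) (x : X) : Prop := IsLocalDiffeomorphAt 𝓘(ℝ, E) 𝓘(ℝ, E) ∞ g x

/-- `g` is a diffeomorphism of class `C^∞`. -/
def IsDiffeo (g : X → Y) : Prop := ∃ D : Diffeomorph 𝓘(ℝ, E) 𝓘(ℝ, E) X Y ∞, ⇑D = g

/-- The singularities of the first kind. -/
def BigO (η : ℝ → ℝ) (g : P × E → E) : Prop :=
  (∀ᶠ x in 𝓝 (0 : E), g (0, x) = x) ∧
    (∃ C : ℝ, ∀ᶠ z in 𝓝[≠] (0 : P × E), ‖g z - z.2‖ ≤ C * η ‖z‖) ∧
    ∀ k : ℕ, ∃ C : ℝ, ∀ᶠ z in 𝓝[≠] (0 : P × E), ‖iteratedFDeriv ℝ (k + 1) g z‖ * η ‖z‖ ^ k ≤ C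

/-- The singularities of the second kind. -/
def LittleO (η : ℝ → ℝ) (g : P × E → E) : Prop :=
  ∃ T : P × E → E,
    ((∀ᶠ z in 𝓝 (0 : P × E), ContDiffAt ℝ ∞ T z) ∧ LocDiff E (fun x : E => T (0, x)) 0) ∧
    (∃ C : ℝ, ∀ᶠ z in 𝓝[≠] (0 : P × E), ‖g z - T z‖ ≤ C * η ‖z‖) ∧
    (∀ᶠ z in 𝓝[≠] (0 : P × E), ContDiffAt ℝ 2 g z) ∧
    Tendsto (fun z => ‖iteratedFDeriv ℝ 2 g z‖ * η ‖z‖) (𝓝[≠] (0 : P × E)) (𝓝 0)

/-- `F` is a family of homeomorphisms of `X` onto `Y`: the map `(s, x) ↦ (s, F s x)` is a
homeomorphism. -/
def HomeoFamily (F : P → X → Y) : Prop := IsHomeomorph fun z : P × X => (z.1, F z.1 z.2)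

/-- The regular points of a family: near the point the map `(s, x) ↦ F s x` is of class `C^∞`, and
the map `F s` is a local diffeomorphism at `x`. -/
def Regular (F : P → X → Y) (z : P × X) : Prop :=
  (∀ᶠ w in 𝓝 z, ContMDiffAt (𝓘(ℝ, P).prod 𝓘(ℝ, E)) 𝓘(ℝ, E) ∞ (fun w : P × X => F w.1 w.2) w) ∧
    LocDiff E (F z.1) z.2

/-- The singular points. -/
def sing (F : P → X → Y) : Set (P × X) := {z | ¬ Regular E F z}

/-- In suitable smooth coordinates `A` around `x` and `B` around `F s x`, where `z = (s, x)`, the
family has the property `Q`. -/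
def InCoordinates (Q : (P × E → E) → Prop) (F : P → X → Y) (z : P × X) : Prop :=
  ∃ (A : E → X) (B : Y → E), A 0 = z.2 ∧ LocDiff E A 0 ∧ LocDiff E B (F z.1 z.2) ∧
    Q fun w => B (F (z.1 + w.1) (A w.2))

/-- Families of homeomorphisms with finitely many singular points, which have the property `Q` in
coordinates. -/
def SingularFamily (Q : (P × E → E) → Prop) (F : P → X → Y) : Prop :=
  HomeoFamily F ∧ (sing E F).Finite ∧ ∀ z ∈ sing E F, InCoordinates E Q F z

/-- Smooth families of diffeomorphisms. -/
def SmoothFamily (F : P → X → Y) : Prop := HomeoFamily F ∧ ∀ z, Regular E F z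

/-- All the maps `F s` are diffeomorphisms of class `C^∞`, and `(s, x) ↦ F s x` is everywhere
differentiable. -/
def Mild (F : P → X → Y) : Prop :=
  (∀ s, IsDiffeo E (F s)) ∧
    ∀ z, MDifferentiableAt (𝓘(ℝ, P).prod 𝓘(ℝ, E)) 𝓘(ℝ, E) (fun w : P × X => F w.1 w.2) z

/-- Every neighbourhood of the graph of `F` contains the graph of a family `F'` with the property `Q`
which is equal to `F` off a given neighbourhood `V` of the set of singular points of `F`. -/
def Approximable (Q : (P → X → Y) → Prop) (F : P → X → Y) : Prop :=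
  ∀ (V : Set (P × X)) (O : Set ((P × X) × Y)), IsOpen V → sing E F ⊆ V → IsOpen O →
    (∀ z, (z, F z.1 z.2) ∈ O) →
    ∃ F' : P → X → Y, Q F' ∧ (∀ z, (z, F' z.1 z.2) ∈ O) ∧ ∀ z, z ∉ V → F' z.1 z.2 = F z.1 z.2

/-- `φ` and `ψ` are joined by a path of maps `F t` (equal to `φ` for `t ≤ - r` and to `ψ` for
`t ≥ r`) with the property `Q`. -/
def Joined (Q : (ℝ → X → Y) → Prop) (φ ψ : X → Y) : Prop :=
  ∃ (F : ℝ → X → Y) (r : ℝ), Q F ∧ (∀ t, t ≤ -r → F t = φ) ∧ ∀ t, r ≤ t → F t = ψ

/-- The family `R s`, `s ≠ 0`, is a smooth family of diffeomorphisms with supports in a compact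
subset of the open cell `c(E)`. -/
def SupportedInCell (c : E → X) (R : P → X → X) : Prop :=
  ∃ K : Set E, IsCompact K ∧ ∀ s, s ≠ 0 →
    Bijective (R s) ∧ (∀ x, Regular E R (s, x)) ∧ ∀ y, y ∉ c '' K → R s y = y

/-- The families of the first kind: finitely many singular points, with the property `BigO`; all maps
`F s` are diffeomorphisms, and `(s, x) ↦ F s x` is everywhere differentiable; the set of singular
points is contained in a given set `S`. -/
def FirstKind (η : ℝ → ℝ) (S : Set (P × X)) (F : P → X → Y) : Prop :=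
  SingularFamily E (BigO E η) F ∧ Mild E F ∧ sing E F ⊆ S

/-- The extension of the family `R s`, `s ≠ 0`, changed for `|s| < δ`. -/
def Extends (η : ℝ → ℝ) (c : E → X) (R : P → X → X) : Prop :=
  ∀ δ : ℝ, 0 < δ → ∃ F : P → X → X, FirstKind E η {(0, c 0)} F ∧ ∀ s, δ ≤ ‖s‖ → F s = R s

variable (P X Y)

/-- 1. Every family with finitely many singular points can be approximated by families of the first
kind, without new singular points. -/
def FirstTheorem (η : ℝ → ℝ) : Prop :=
  ∀ F : P → X → Y, HomeoFamily F → (sing E F).Finite → Approximable E (FirstKind E η (sing E F)) F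

/-- 2. Every family with finitely many singular points of the second kind can be approximated by
smooth families. -/
def SecondTheorem (η : ℝ → ℝ) : Prop :=
  ∀ F : P → X → Y, SingularFamily E (LittleO E η) F → Approximable E (SmoothFamily E) F

/-- 3. Families over the complement of `0` with supports in a cell extend, if they are changed near
`0`, to families of the first kind with at most one singular point. -/
def CellTheorem (η : ℝ → ℝ) : Prop :=
  ∀ (c : E → X) (R : P → X → X), Injective c → (∀ z, LocDiff E c z) → SupportedInCell E c R →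
    Extends E η c R

/-- 4. Two maps of `X` onto `Y` are smoothly isotopic if and only if they are joined by a path with
finitely many singular points of the second kind. -/
def IsotopyTheorem (η : ℝ → ℝ) : Prop :=
  ∀ φ ψ : X → Y, Joined (SmoothFamily E) φ ψ ↔ Joined (SingularFamily E (LittleO E η)) φ ψ

/-- Every diffeomorphism of `X` which is the identity near a point is joined to the identity by a path
of the first kind with at most one singular point. -/
def AlexanderTheorem (η : ℝ → ℝ) : Prop :=
  ∀ (φ : X → X) (q : X), IsDiffeo E φ → (∀ᶠ x in 𝓝 q, φ x = x) →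
    ∃ p : X, Joined (FirstKind E η {((0 : ℝ), p)}) id φ

end defs

/-- The euclidean space `ℝ^n`. -/
abbrev R (n : ℕ) : Type := EuclideanSpace ℝ (Fin n)

instance factR (n : ℕ) : Fact (Module.finrank ℝ (R (n + 1)) = n + 1) :=
  ⟨finrank_euclideanSpace_fin⟩

/-- The unit sphere `S^n` of `ℝ^(n+1)`. -/
abbrev S (n : ℕ) : Type := sphere (0 : R (n + 1)) 1

section proof

open Pool.Agent.H816 Pool.Agent.Y522 Pool.Agent.H816.Fam

theorem gauge_of {η : ℝ → ℝ} (hη : Gauge η) : ∃ κ, Pool.Agent.H816.Gauge η κ := by
  obtain ⟨h1, -, κ, h2, h3, h4, h5⟩ := hη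
  exact ⟨κ,
    { κ_pos := h2
      pos := fun r hr hr' => (h4 r ⟨hr, hr'⟩).1
      smooth := fun r hr hr' => (h4 r ⟨hr, hr'⟩).2
      mono := h3
      tend := h1
      bd := fun k => by
        obtain ⟨C, hC⟩ := h5 k
        refine ⟨C, fun r hr hr' => ?_⟩
        rw [norm_iteratedFDeriv_eq_norm_iteratedDeriv, Real.norm_eq_abs]
        exact hC r ⟨hr, hr'⟩ }⟩

theorem gauge_lin {η : ℝ → ℝ} (hη : Gauge η) : Tendsto (fun r => η r / r) (𝓝[>] 0) (𝓝 0) := by
  obtain ⟨κ, hκ⟩ := gauge_of hη
  have hIoo : ∀ᶠ r in 𝓝[>] (0 : ℝ), r ∈ Ioo 0 κ := Ioo_mem_nhdsGT hκ.κ_pos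
  rw [Metric.tendsto_nhds]
  intro ε hε
  obtain ⟨R, hR, -, h⟩ := small_lin hκ.tend
    (hIoo.mono fun r hr => (hκ.smooth r hr.1 hr.2).differentiableAt (by simp)) hη.2.1
    (ε := ε / 2) (by positivity)
  filter_upwards [Ioo_mem_nhdsGT hR] with r hr
  rw [Real.dist_eq, sub_zero, abs_div, abs_of_pos hr.1, div_lt_iff₀ hr.1]
  have := h r hr.1 hr.2
  nlinarith [hr.1]

variable {n : ℕ} {X Y : Type} [TopologicalSpace X] [TopologicalSpace Y]
  [ChartedSpace (R n) X] [ChartedSpace (R n) Y]

theorem isDiffeo_of {g : X → Y} (hb : Bijective g) (hl : ∀ x, LD n g x) : IsDiffeo (R n) g := by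
  have hl' : IsLocalDiffeomorph 𝓘(ℝ, R n) 𝓘(ℝ, R n) ∞ g := hl
  exact ⟨hl'.diffeomorphOfBijective hb, rfl⟩

theorem of_isDiffeo {g : X → Y} (h : IsDiffeo (R n) g) : Bijective g ∧ ∀ x, LD n g x := by
  obtain ⟨D, rfl⟩ := h
  exact ⟨D.bijective, fun x => D.isLocalDiffeomorph x⟩

variable {P : Type} [NormedAddCommGroup P] [InnerProductSpace ℝ P] [FiniteDimensional ℝ P]

theorem big_iff {η : ℝ → ℝ} {F : P → X → Y} {z : P × X} (h : InCo (n := n) (Big η) F z) :
    InCoordinates (R n) (BigO (R n) η) F z := by
  obtain ⟨A, B, h1, h2, h3, h4⟩ := h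
  exact ⟨A, B, h1, h2, h3, h4.level, h4.contact, h4.bd⟩

theorem lit_iff {η : ℝ → ℝ} {F : P → X → Y} {z : P × X}
    (h : InCoordinates (R n) (LittleO (R n) η) F z) : InCo (n := n) (Lit η) F z := by
  obtain ⟨A, B, h1, h2, h3, T, h4, h5, h6, h7⟩ := h
  exact ⟨A, B, h1, h2, h3, T, ⟨h4, h5, h6, h7⟩⟩

theorem mild_of {η : ℝ → ℝ} (hη : Gauge η) {F : P → X → Y} (hF : HomeoFamily F)
    (h : ∀ z : P × X, MReg n F z ∨ (InCo (n := n) (Big η) F z ∧ LD n (F z.1) z.2)) :
    Mild (R n) F := by
  have hF' : IsHomeomorph (tot F) := hF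
  refine ⟨fun s => isDiffeo_of (tot_level hF' s).bijective fun x => ?_, fun z => ?_⟩
  · rcases h (s, x) with h | h
    · exact h.2
    · exact h.2
  · rcases h z with h | h
    · exact h.mdiff
    · exact mdiff_of_big (gauge_lin hη) (continuous_snd.comp hF'.continuous).continuousAt h.1

section approx

variable [T2Space X] [T2Space Y]

theorem first [Nontrivial P] [IsManifold 𝓘(ℝ, R n) ∞ X] [IsManifold 𝓘(ℝ, R n) ∞ Y] {η : ℝ → ℝ}
    (hη : Gauge η) {F : P → X → Y} (hF : HomeoFamily F) (hS : (sing (R n) F).Finite) :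
    Approximable (R n) (FirstKind (R n) η (sing (R n) F)) F := by
  intro V O hV hSV hO hFO
  obtain ⟨κ, hκ⟩ := gauge_of hη
  obtain ⟨F', h1, h2, h3, h4, h5⟩ := all_big hκ (gauge_lin hη) hV hO hF hFO hS hSV
  refine ⟨F', ⟨⟨h1, hS.subset h3, fun z hz => ?_⟩, mild_of hη h1 h5, h3⟩, h2,
    fun z hz => (h4 z hz).self_of_nhds⟩
  rcases h5 z with h | h
  · exact absurd h hz
  · exact big_iff h.1

theorem second {η : ℝ → ℝ} (hη : Gauge η) {F : P → X → Y}
    (hF : SingularFamily (R n) (LittleO (R n) η) F) :
    Approximable (R n) (SmoothFamily (R n)) F := by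
  intro V O hV hSV hO hFO
  obtain ⟨κ, hκ⟩ := gauge_of hη
  obtain ⟨F', h1, h2, h3, h4⟩ := all_lit (n := n) hκ hη.2.1 hV hO hF.1 hFO hF.2.1 hSV
    fun z hz => lit_iff (hF.2.2 z hz)
  exact ⟨F', ⟨h1, h4⟩, h2, fun z hz => (h3 z hz).self_of_nhds⟩

theorem third {η : ℝ → ℝ} (hη : Gauge η) {c : R n → X}
    (ci : Injective c) (cl : ∀ z, LD n c z) {Q : P → X → X} (hQ : SupportedInCell (R n) c Q) :
    Extends (R n) η c Q := by
  intro δ hδ
  obtain ⟨κ, hκ⟩ := gauge_of hη
  obtain ⟨K, hK, h⟩ := hQ
  obtain ⟨K0, hK0⟩ := hK.isBounded.subset_closedBall (0 : R n)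
  have hsub : K ⊆ closedBall (0 : R n) (max K0 1) :=
    hK0.trans (closedBall_subset_closedBall (le_max_left _ _))
  obtain ⟨F, f1, f2, f3, f4, f5, -⟩ := alex hκ (gauge_lin hη) ci cl (R := Q) (K0 := max K0 1)
    (lt_max_of_lt_right one_pos) (fun s hs => (h s hs).1) (fun s x hs => (h s hs).2.1 x)
    (fun s y hs hy => (h s hs).2.2 y fun h => hy (image_mono hsub h)) hδ
  have hsing : sing (R n) F ⊆ {(0, c 0)} := by
    intro z hz
    by_contra hcon
    exact hz (f3 z hcon)
  refine ⟨F, ⟨⟨f1, (finite_singleton _).subset hsing, fun z hz => ?_⟩, ?_, hsing⟩, f2⟩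
  · have h1 : z = (0, c 0) := hsing hz
    rw [h1]
    exact big_iff f4
  · refine mild_of hη f1 fun z => ?_
    by_cases hz : z = (0, c 0)
    · rw [hz]
      exact Or.inr ⟨f4, f5 _⟩
    · exact Or.inl (f3 z hz)

theorem joined_iff {η : ℝ → ℝ} (hη : Gauge η) (φ ψ : X → Y) :
    Joined (SingularFamily (R n) (LittleO (R n) η)) φ ψ ↔ Joined (SmoothFamily (R n)) φ ψ := by
  constructor
  · rintro ⟨F, r, hF, h1, h2⟩
    obtain ⟨C, hC⟩ : ∃ C : ℝ, ∀ z ∈ sing (R n) F, ‖z.1‖ < C := by
      obtain ⟨C, hC⟩ := (hF.2.1.image Prod.fst).isBounded.subset_ball (0 : ℝ)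
      exact ⟨C, fun z hz => mem_ball_zero_iff.1 (hC (mem_image_of_mem _ hz))⟩
    obtain ⟨F', h3, -, h4⟩ := second hη hF {z | ‖z.1‖ < C} univ
      (isOpen_lt continuous_fst.norm continuous_const) hC isOpen_univ fun _ => mem_univ _
    have hnot : ∀ t : ℝ, max C r ≤ |t| → ∀ x : X, ((t, x) : ℝ × X) ∉ {z : ℝ × X | ‖z.1‖ < C} := by
      intro t ht x hx
      have hx' : |t| < C := hx
      exact absurd ((le_max_left C r).trans ht) (not_le.2 hx')
    refine ⟨F', max C (max r 0), h3, fun t ht => ?_, fun t ht => ?_⟩
    · have ht1 : max C (max r 0) ≤ -t := by linarith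
      have ht2 : max C r ≤ |t| := by
        refine le_trans ?_ (neg_le_abs t)
        exact le_trans (max_le_max le_rfl (le_max_left _ _)) ht1
      funext x
      rw [h4 (t, x) (hnot t ht2 x)]
      have : t ≤ -r := by
        have := (le_max_left r 0).trans ((le_max_right C _).trans ht1)
        linarith
      exact congrFun (h1 t this) x
    · have ht2 : max C r ≤ |t| := by
        refine le_trans ?_ (le_abs_self t)
        exact le_trans (max_le_max le_rfl (le_max_left _ _)) ht
      funext x
      rw [h4 (t, x) (hnot t ht2 x)]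
      exact congrFun (h2 t ((le_max_left r 0).trans ((le_max_right C _).trans ht))) x
  · rintro ⟨F, r, hF, h1, h2⟩
    have hs : sing (R n) F = ∅ := by
      ext z
      simp only [mem_empty_iff_false, iff_false]
      exact fun hz => hz (hF.2 z)
    refine ⟨F, r, ⟨hF.1, by rw [hs]; exact finite_empty, fun z hz => ?_⟩, h1, h2⟩
    rw [hs] at hz
    exact absurd hz (notMem_empty z)

end approx

theorem sphere_joined {η : ℝ → ℝ} (hη : Gauge η) {φ : S n → S n} (hφ : IsDiffeo (R n) φ) {q : S n}
    (hq : ∀ᶠ x in 𝓝 q, φ x = x) :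
    ∃ p : S n, Joined (FirstKind (R n) η {((0 : ℝ), p)}) id φ := by
  obtain ⟨hb, hl⟩ := of_isDiffeo hφ
  obtain ⟨K0, hK0, h⟩ := sphere_support hq
  obtain ⟨Q, hQ1, hQ2⟩ : ∃ Q : ℝ → S n → S n, (∀ t, 0 < t → Q t = φ) ∧
      ∀ t, ¬ 0 < t → Q t = id :=
    ⟨fun t => if 0 < t then φ else id, fun t ht => if_pos ht, fun t ht => if_neg ht⟩
  have hreg : ∀ t x, t ≠ 0 → MReg n Q (t, x) := by
    intro t x ht
    by_cases h0 : 0 < t
    · refine (MReg.const (P := ℝ) (z := (t, x)) (hl x)).congr ?_
      have h1 : ∀ᶠ w : ℝ × S n in 𝓝 (t, x), 0 < w.1 :=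
        (continuous_fst.tendsto (t, x)).eventually_const_lt h0
      filter_upwards [h1] with w hw
      rw [hQ1 _ hw]
    · have h0' : t < 0 := lt_of_le_of_ne (not_lt.1 h0) ht
      refine (MReg.id (P := ℝ) (n := n) (t, x)).congr ?_
      have h1 : ∀ᶠ w : ℝ × S n in 𝓝 (t, x), w.1 < 0 :=
        (continuous_fst.tendsto (t, x)).eventually_lt_const h0'
      filter_upwards [h1] with w hw
      rw [hQ2 _ (not_lt.2 hw.le)]
      rfl
  have hsup : SupportedInCell (R n) (sg q) Q := by
    refine ⟨closedBall 0 K0, isCompact_closedBall _ _, fun t ht => ⟨?_, fun x => hreg t x ht, ?_⟩⟩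
    · by_cases h0 : 0 < t
      · rw [hQ1 t h0]
        exact hb
      · rw [hQ2 t h0]
        exact bijective_id
    · intro y hy
      by_cases h0 : 0 < t
      · rw [hQ1 t h0]
        exact h y hy
      · rw [hQ2 t h0]
        rfl
  obtain ⟨F, f1, f4⟩ := third hη (sg_inj q) (sg_LD q) hsup 1 one_pos
  refine ⟨sg q 0, F, 1, f1, fun t ht => ?_, fun t ht => ?_⟩
  · rw [f4 t (by rw [Real.norm_eq_abs]; exact le_trans (by linarith) (neg_le_abs t))]
    exact hQ2 t (by linarith)
  · rw [f4 t (by rw [Real.norm_eq_abs]; exact ht.trans (le_abs_self t))]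
    exact hQ1 t (by linarith)

end proof

/-- **Isotopies with isolated singular points: a sharp threshold for the second derivative.** Let `X`
and `Y` be smooth Hausdorff manifolds of dimension `n`, let `P ≠ 0` be a euclidean space and `η` a
gauge. Every family of homeomorphisms of `X` onto `Y` over `P` with finitely many singular points can
be approximated by families of diffeomorphisms, everywhere differentiable, with second derivatives
`O(1/η)` at the singular points. If the second derivatives are `o(1/η)` at the singular points, it can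
be approximated by smooth families of diffeomorphisms. Families `R s`, `s ≠ 0`, with supports in a
cell can be changed near `0` so that they extend over `P`, with one singular point of the first kind.
Maps of `X` onto `Y` are smoothly isotopic if and only if they are joined by a path with finitely many
singular points of the second kind; a diffeomorphism of `S^n` which is the identity near a point is
always joined to the identity by a path of diffeomorphisms with at most one singular point of the
first kind. -/
theorem result (n : ℕ) (X Y : Type) [TopologicalSpace X] [TopologicalSpace Y]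
    [ChartedSpace (R n) X] [ChartedSpace (R n) Y] [IsManifold 𝓘(ℝ, R n) ∞ X]
    [IsManifold 𝓘(ℝ, R n) ∞ Y] [T2Space X] [T2Space Y] (P : Type) [NormedAddCommGroup P]
    [InnerProductSpace ℝ P] [FiniteDimensional ℝ P] [Nontrivial P] (η : ℝ → ℝ) (hη : Gauge η) :
    FirstTheorem (R n) P X Y η ∧ SecondTheorem (R n) P X Y η ∧ CellTheorem (R n) P X η ∧
      IsotopyTheorem (R n) X Y η ∧ AlexanderTheorem (R n) (S n) η :=
  ⟨fun _ hF hS => first hη hF hS, fun _ hF => second hη hF,
    fun _ _ ci cl hQ => third hη ci cl hQ, fun φ ψ => (joined_iff hη φ ψ).symm,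
    fun _ _ hφ hq => sphere_joined hη hφ hq⟩

end Pool.Agent.Results.MP_8e98f2_gt.IsotopySingularities
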