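import Mathlib
import Pool.Agent.H822.SM.LUHtp

/-!
# Diffeomorphisms of `ℝ⁴` which map parallel planes to graphs

Let `E = V₀ ⊕ ⋯ ⊕ V_{r-1}` be a finite dimensional space.  The big cell consists of the compactly
supported diffeomorphisms of `E` the derivatives of which have non-vanishing leading principal
minors (in blocks); for `ℝ⁴ = V₀ ⊕ V₁` these are the diffeomorphisms which map the planes parallel
to `V₀` to graphs over `V₀`.  There is a nonlinear LU decomposition of the cell.  If all blocks
have dimension at most two then the cell is contractible, and a diffeomorphism is isotopic to the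
identity if and only if it is a product of diffeomorphisms each of which moves the points parallel
to one of the `Vᵢ`.
-/

set_option autoImplicit false

open scoped ContDiff
open Set Filter Topology Function
open Pool.Agent.H822.LD

namespace Pool.Agent.Results.MP_8e98f2_gt.NonlinearLU

/-- The results, for families of compactly supported diffeomorphisms of `E` with parameters in
`P`. -/
structure BigCell (E P : Type) [NormedAddCommGroup E] [NormedSpace ℝ E]
    [NormedAddCommGroup P] [NormedSpace ℝ P] (r : ℕ) (q : ℕ → E →L[ℝ] E) : Prop where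
  /-- The families in the cell are the products `f_{r-1} ∘ ⋯ ∘ f₀` with `f_k` parallel to `V_k`. -/
  factorization : ∀ φ : P → Equiv.Perm E, Diffs φ → ((∀ p, InCell r q (φ p)) ↔
    ∃ f : ℕ → P → Equiv.Perm E, (∀ k < r, Diffs (f k) ∧ ∀ p, Parallel (block q k) (f k p)) ∧
      prodFam f r = φ)
  /-- The factors are unique. -/
  unique : ∀ f f' : ℕ → P → Equiv.Perm E, (∀ k < r, ∀ p, Parallel (block q k) (f k p)) →
    (∀ k < r, ∀ p, Parallel (block q k) (f' k p)) → prodFam f r = prodFam f' r →
    ∀ k < r, f k = f' k
  /-- Two families in the cell are homotopic in the cell if and only if their factors are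
  homotopic, through diffeomorphisms parallel to `V_k`. -/
  homotopy : ∀ f f' : ℕ → P → Equiv.Perm E,
    (∀ k < r, Diffs (f k) ∧ ∀ p, Parallel (block q k) (f k p)) →
    (∀ k < r, Diffs (f' k) ∧ ∀ p, Parallel (block q k) (f' k p)) →
    (HtpThrough (InCell r q) (prodFam f r) (prodFam f' r) ↔
      ∀ k < r, HtpThrough (Parallel (block q k)) (f k) (f' k))
  /-- Factors in dimension at most two are homotopic to the identity, through diffeomorphisms
  parallel to `V_k`. -/
  small : ∀ k, Module.finrank ℝ (block q k) ≤ 2 → ∀ f : P → Equiv.Perm E, Diffs f →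
    (∀ p, Parallel (block q k) (f p)) → HtpThrough (Parallel (block q k)) f 1
  /-- If all `V_k` have dimension at most two then the cell is weakly contractible. -/
  contractible : (∀ k < r, Module.finrank ℝ (block q k) ≤ 2) → ∀ φ : P → Equiv.Perm E,
    Diffs φ → (∀ p, InCell r q (φ p)) → HtpThrough (InCell r q) φ 1
  /-- If all `V_k` have dimension at most two, and `ψ⁻¹ ∘ φ` lies in the cell, then `φ` and `ψ` are
  homotopic. -/
  criterion : (∀ k < r, Module.finrank ℝ (block q k) ≤ 2) → ∀ φ ψ : P → Equiv.Perm E,
    Diffs φ → Diffs ψ → (∀ p, InCell r q ((ψ p)⁻¹ * φ p : Equiv.Perm E)) → Htp φ ψ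
  /-- If all `V_k` have dimension at most two then a family is homotopic to the identity if and
  only if it is a product of families each of which moves the points parallel to one `V_k`. -/
  generated : (∀ k < r, Module.finrank ℝ (block q k) ≤ 2) → ∀ φ : P → Equiv.Perm E, Diffs φ →
    (Htp φ 1 ↔ φ ∈ Subgroup.closure
      {f : P → Equiv.Perm E | Diffs f ∧ ∃ k < r, ∀ p, Parallel (block q k) (f p)})

/-- **The nonlinear LU decomposition and the big cell of `Diff_c(E)`.** -/
theorem result (E P : Type) [NormedAddCommGroup E] [NormedSpace ℝ E] [FiniteDimensional ℝ E]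
    [NormedAddCommGroup P] [NormedSpace ℝ P] [FiniteDimensional ℝ P] (r : ℕ)
    (q : ℕ → E →L[ℝ] E) (h : Decomposition r q) : BigCell E P r q := by
  refine ⟨fun φ hφ => ⟨fun hc => exists_factor h hφ hc, ?_⟩, fun f f' hf hf' he k hk =>
    factor_uniq h hf hf' he hk, fun f f' hf hf' => htp_factors h hf hf',
    fun k hk f hf hp => small_block hk hf hp, fun hd φ hφ hc => cell_through h hd hφ hc,
    fun hd φ ψ hφ hψ hc => htp_of_cell h hd hφ hψ hc,
    fun hd φ _ => ⟨fun h1 => gen_of_htp h h1, fun h1 => htp_of_gen hd h1⟩⟩
  rintro ⟨f, hf, rfl⟩ p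
  exact prodFam_cell h hf p

end Pool.Agent.Results.MP_8e98f2_gt.NonlinearLU
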