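import Mathlib
import Pool.Agent.H822.SM.SubBridge

/-!
# Diffeomorphisms of `ℝ⁴` and submersions `ℝ⁴ → ℝ²`

For all `k`, the map `φ ↦ π ∘ φ⁻¹` is a weak homotopy equivalence from `Diff_c(ℝ^{k+2})` to the
space of the submersions `ℝ^{k+2} → ℝ^k` which are equal to the standard projection `π` off a
compact set, and it is surjective.  In particular (`k = 2`) the implantation of a barbell in `ℝ⁴`
is isotopic to the identity if and only if `π ∘ φ⁻¹` is homotopic to `π` through such submersions
`ℝ⁴ → ℝ²`.  For `k = 0` the theorem is Smale's theorem on `Diff_c(ℝ²)`.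
-/

set_option autoImplicit false

open scoped ContDiff
open Set Filter Topology Function
open Pool.Agent.H822.SD

namespace Pool.Agent.Results.MP_8e98f2_gt.SubmersionCriterion

/-- The equivalence of diffeomorphisms and submersions, for families with parameters in `P`. -/
structure Equivalence (k : ℕ) (P : Type) [NormedAddCommGroup P] [NormedSpace ℝ P] : Prop where
  /-- If `φ` is a family of diffeomorphisms then `π ∘ φ⁻¹` is a family of submersions. -/
  projection : ∀ φ : P → M k ≃ M k, Diffs φ → Subs (proj φ)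
  /-- Each family of submersions is of the form `π ∘ φ⁻¹`. -/
  realised : ∀ F : P → M k → (Fin k → ℝ), Subs F → ∃ φ : P → M k ≃ M k, Diffs φ ∧ proj φ = F
  /-- Two families of diffeomorphisms are homotopic if and only if the submersions are. -/
  homotopy : ∀ φ φ' : P → M k ≃ M k, Diffs φ → Diffs φ' →
    (DiffHtp φ φ' ↔ SubHtp (proj φ) (proj φ'))
  /-- If, for all `w ≠ 0` in the dual space of `ℝ^k`, at no point the derivative of `w ∘ π ∘ φ` is
  a multiple `-t ≤ 0` of the derivative of `w ∘ π ∘ φ'`, then `φ` and `φ'` are homotopic. -/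
  criterion : ∀ φ φ' : P → M k ≃ M k, Diffs φ → Diffs φ' →
    (∀ p z (w : (Fin k → ℝ) →L[ℝ] ℝ) (t : ℝ), 0 ≤ t →
      fderiv ℝ (fun z => w (φ p z).1) z = -(t • fderiv ℝ (fun z => w (φ' p z).1) z) → w = 0) →
    DiffHtp φ φ'

/-- **Diffeomorphisms of `ℝ^{k+2}` and submersions to `ℝ^k`.** -/
theorem result (k : ℕ) (P : Type) [NormedAddCommGroup P] [NormedSpace ℝ P]
    [FiniteDimensional ℝ P] : Equivalence k P := by
  refine ⟨fun φ hφ => ?_, fun F hF => ?_, fun φ φ' hφ hφ' => ?_, fun φ φ' hφ hφ' h => ?_⟩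
  · rw [subs_iff]
    exact Pool.Agent.H822.SM.sub_of_dif hφ.symm.dfam
  · rw [subs_iff] at hF
    obtain ⟨φ, hφ, h1⟩ := Pool.Agent.H822.SM.realize hF
    obtain ⟨φ', hφ', h2⟩ := exists_diffs hφ
    refine ⟨φ', hφ', ?_⟩
    funext p z
    obtain ⟨y, rfl⟩ := (φ' p).surjective z
    show ((φ' p).symm (φ' p y)).1 = F p (φ' p y)
    rw [Equiv.symm_apply_apply, h2, h1]
  · rw [diffhtp_iff, subhtp_iff]
    constructor
    · exact Pool.Agent.H822.SM.shtp_of_dhtp hφ.dfam hφ'.dfam (fun p z => (φ p).symm_apply_apply z)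
        (fun p z => (φ' p).symm_apply_apply z)
    · exact Pool.Agent.H822.SM.dhtp_of_shtp hφ.dfam hφ'.dfam hφ'.symm.dfam
        (fun p z => (φ p).symm_apply_apply z) (fun p z => (φ' p).apply_symm_apply z)
  · rw [diffhtp_iff]
    exact Pool.Agent.H822.SM.criterion hφ.dfam hφ'.dfam h

end Pool.Agent.Results.MP_8e98f2_gt.SubmersionCriterion
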